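import Pool.Agent.TTC.StmtsC

/-!
# Squad TTC (MP_160b6c_nt), row EXL
-/

set_option autoImplicit false

open Polynomial

namespace Pool.Agent.TTC.H88

theorem exl : ExlStmt := by
  intro a h
  by_contra hc
  push Not at hc
  set f : ℂ[X] := quin a with hf
  have hfd : f.natDegree = 5 := by
    rw [hf]; unfold quin
    compute_degree!
  have hfm : f.Monic := by
    rw [hf]; unfold quin
    monicity!
  set g : ℂ[X] := derivative f with hg
  have hgd : g.natDegree = 4 := by
    have h1 := degree_derivative (p := f) (by rw [hfd]; norm_num)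
    rw [hfd] at h1
    rw [hg]
    exact natDegree_eq_of_degree_eq_some h1
  have hgl : g.leadingCoeff = 5 := by
    rw [leadingCoeff, hgd, hg, coeff_derivative]
    have h1 : f.coeff (4 + 1) = 1 := by
      have := hfm.coeff_natDegree
      rwa [hfd] at this
    rw [h1]
    norm_num
  have key : ∀ m : Fin 5, ∃ θ ∈ g.roots.toFinset,
      (derivative g + C ((m : ℕ) : ℂ) * f).eval θ = 0 := by
    intro m
    have h0 : er (m : ℕ) a = 0 := hc _ (by omega)
    have hd : (derivative g + C ((m : ℕ) : ℂ) * f).natDegree ≤ 5 := by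
      refine (natDegree_add_le _ _).trans (max_le ?_ ?_)
      · refine (natDegree_derivative_le g).trans ?_
        omega
      · exact (natDegree_C_mul_le _ _).trans hfd.le
    have h2 := resultant_eq_prod_eval g (derivative g + C ((m : ℕ) : ℂ) * f) 5 hd
      (IsAlgClosed.splits g)
    rw [hgd, hgl] at h2
    have h3 : resultant g (derivative g + C ((m : ℕ) : ℂ) * f) 4 5 = 0 := h0
    rw [h3] at h2
    have h4 : (g.roots.map (derivative g + C ((m : ℕ) : ℂ) * f).eval).prod = 0 := by
      rcases mul_eq_zero.1 h2.symm with h5 | h5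
      · exact absurd h5 (by norm_num)
      · exact h5
    rw [Multiset.prod_eq_zero_iff, Multiset.mem_map] at h4
    obtain ⟨θ, hθ, hθ0⟩ := h4
    exact ⟨θ, Multiset.mem_toFinset.2 hθ, hθ0⟩
  choose θ hθ1 hθ2 using key
  have hcard : g.roots.toFinset.card < (Finset.univ : Finset (Fin 5)).card := by
    rw [Finset.card_univ, Fintype.card_fin]
    have h1 := Multiset.toFinset_card_le g.roots
    have h2 := card_roots' g
    omega
  obtain ⟨m1, -, m2, -, hne, heq⟩ := Finset.exists_ne_map_eq_of_card_lt_of_maps_to hcard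
    (f := θ) (fun m _ => hθ1 m)
  have e1 := hθ2 m1
  have e2 := hθ2 m2
  rw [← heq] at e2
  simp only [eval_add, eval_mul, eval_C] at e1 e2
  have hsub : (((m1 : ℕ) : ℂ) - ((m2 : ℕ) : ℂ)) * f.eval (θ m1) = 0 := by linear_combination e1 - e2
  have hm : (((m1 : ℕ) : ℂ) - ((m2 : ℕ) : ℂ)) ≠ 0 := by
    rw [sub_ne_zero]
    intro hcast
    exact hne (Fin.ext (by exact_mod_cast hcast))
  have f0 : f.eval (θ m1) = 0 := (mul_eq_zero.1 hsub).resolve_left hm
  have f2 : (derivative g).eval (θ m1) = 0 := by
    rw [f0, mul_zero, add_zero] at e1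
    exact e1
  have hg0 : g ≠ 0 := by
    intro h0
    rw [h0] at hgd
    simp at hgd
  have f1 : g.eval (θ m1) = 0 := by
    have h1 := Multiset.mem_toFinset.1 (hθ1 m1)
    rw [mem_roots hg0] at h1
    exact h1
  apply h (θ m1)
  rw [← le_rootMultiplicity_iff hfm.ne_zero]
  have h3 : 2 < f.rootMultiplicity (θ m1) := by
    rw [lt_rootMultiplicity_iff_isRoot_iterate_derivative hfm.ne_zero]
    intro m hm
    interval_cases m
    · exact f0
    · exact f1
    · exact f2
  exact h3

end Pool.Agent.TTC.H88
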