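import Pool.Agent.TTC.StmtsG
import Pool.Agent.Helper59_TTC.OM2

set_option autoImplicit false

/-!
# Squad TTC, row OM7: the node of the odd model
-/

namespace Pool.Agent.TTC.H88

open Polynomial Pool.Agent.TTC.H59

theorem om7 : Om7Stmt := by
  intro k _ _ a α _ ha h0 hc hD
  obtain ⟨hno, ⟨θ, hθ0, hθ1⟩, -⟩ := hD
  have hK : a 0 ^ 4 * (derivative (sext a)).eval α ^ 2 ≠ 0 :=
    mul_ne_zero (pow_ne_zero _ ha) (pow_ne_zero _ hc)
  have he : a 0 ^ 4 * (derivative (sext a)).eval α ≠ 0 := mul_ne_zero (pow_ne_zero _ ha) hc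
  constructor
  · rintro z ⟨h1, h2, h3⟩
    have hz : z ≠ 0 := by
      rintro rfl
      have hd : (sext a).natDegree = 6 := by
        refine le_antisymm (sext_natDegree_le a) (le_natDegree_of_ne_zero ?_)
        rw [sext_coeff6]
        exact ha
      have h4 : (taylor α (sext a)).coeff 6 = a 0 := by
        have h := coeff_taylor_natDegree (f := sext a) (r := α)
        rw [leadingCoeff, hd, sext_coeff6] at h
        exact h
      unfold om at h1
      simp only [eval_add, eval_mul, eval_pow, eval_X, eval_C, h4] at h1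
      have h5 : (taylor α (sext a)).coeff 1 = (derivative (sext a)).eval α := taylor_coeff_one _ _
      rw [h5] at h1
      have h6 : a 0 * (derivative (sext a)).eval α ^ 4 * a 0 ^ 20 = 0 := by
        linear_combination h1
      exact mul_ne_zero (mul_ne_zero ha (pow_ne_zero _ hc)) (pow_ne_zero _ ha) h6
    obtain ⟨y, hy⟩ : ∃ y, a 0 ^ 4 * (derivative (sext a)).eval α = z * y :=
      ⟨a 0 ^ 4 * (derivative (sext a)).eval α / z, by field_simp⟩
    obtain ⟨k1, k2, k3⟩ := key a α z y h0 hy
    have hzy : z * y ≠ 0 := hy ▸ he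
    rw [h1, mul_zero] at k1
    rw [h2, mul_zero] at k2
    rw [h3, mul_zero] at k3
    have f0 : (sext a).eval (y + α) = 0 := by
      rcases mul_eq_zero.1 k1.symm with h | h
      · exact absurd h (pow_ne_zero _ hz)
      · exact h
    rw [f0] at k2 k3
    have f1 : (derivative (sext a)).eval (y + α) = 0 := by
      have h : z * y * z ^ 4 * (derivative (sext a)).eval (y + α) = 0 := by
        linear_combination k2
      rcases mul_eq_zero.1 h with h | h
      · exact absurd h (mul_ne_zero hzy (pow_ne_zero _ hz))
      · exact h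
    rw [f1] at k3
    have f2 : (derivative (derivative (sext a))).eval (y + α) = 0 := by
      have h : (z * y) ^ 2 * z ^ 2 * (derivative (derivative (sext a))).eval (y + α) = 0 := by
        linear_combination -k3
      rcases mul_eq_zero.1 h with h | h
      · exact absurd h (mul_ne_zero (pow_ne_zero _ hzy) (pow_ne_zero _ hz))
      · exact h
    exact hno _ ⟨f0, f1, f2⟩
  · have hne : θ - α ≠ 0 := by
      intro h
      rw [sub_eq_zero] at h
      rw [h] at hθ1
      exact hc hθ1
    refine ⟨a 0 ^ 4 * (derivative (sext a)).eval α / (θ - α), ?_⟩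
    obtain ⟨k1, k2, _⟩ := key a α (a 0 ^ 4 * (derivative (sext a)).eval α / (θ - α)) (θ - α) h0
      (by field_simp)
    rw [sub_add_cancel, hθ0] at k1
    rw [sub_add_cancel, hθ0, hθ1] at k2
    constructor
    · rcases mul_eq_zero.1 (k1.trans (mul_zero _)) with h | h
      · exact absurd h hK
      · exact h
    · rcases mul_eq_zero.1 (k2.trans (by ring)) with h | h
      · exact absurd h hK
      · exact h

end Pool.Agent.TTC.H88
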